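import Pool.Agent.NL.StmtsM

/-!
# NLO, row LEB: Lebesgue density
-/

set_option autoImplicit false

open MeasureTheory Filter Topology Set

noncomputable section

namespace Pool.Agent.NL.H72

open Pool.Agent.NL

theorem nb_eq (n : ℕ) (w : ℝ) : nb n w = Metric.closedBall w (1 / ((n : ℝ) + 1)) := by
  rw [Real.closedBall_eq_Icc]
  rfl

theorem leb1 (hM : MrkStmt) (h : ℝ → ℝ) (C : ℝ) (hm : Measurable h) (hb : ∀ x, |h x| ≤ C) :
    ∀ᵐ w, Tendsto h (dens w) (𝓝 (h w)) := by
  have hloc : LocallyIntegrable h volume := by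
    rw [locallyIntegrable_iff]
    intro K hK
    refine Measure.integrableOn_of_bounded (M := C) hK.measure_lt_top.ne hm.aestronglyMeasurable
      (Eventually.of_forall fun x => ?_)
    rw [Real.norm_eq_abs]
    exact hb x
  filter_upwards [IsUnifLocDoublingMeasure.ae_tendsto_average_norm_sub volume hloc 1] with w hw
  rw [← hM h C hm hb w (h w)]
  have hδ : Tendsto (fun n : ℕ => 1 / ((n : ℝ) + 1)) atTop (𝓝[>] 0) := by
    rw [tendsto_nhdsWithin_iff]
    exact ⟨tendsto_one_div_add_atTop_nhds_zero_nat, Eventually.of_forall fun n => by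
      simp only [Set.mem_Ioi]
      positivity⟩
  have h1 := hw (fun _ : ℕ => w) (fun n : ℕ => 1 / ((n : ℝ) + 1)) hδ
    (Eventually.of_forall fun n => by
      simp only [one_mul]
      exact Metric.mem_closedBall_self (by positivity))
  have h2 := h1.const_mul 2
  rw [mul_zero] at h2
  refine h2.congr fun n => ?_
  rw [setAverage_eq, nb_eq]
  have h3 : (volume.real (Metric.closedBall w (1 / ((n : ℝ) + 1)))) = 2 / ((n : ℝ) + 1) := by
    rw [Real.volume_real_closedBall (by positivity)]
    ring
  rw [h3, smul_eq_mul, inv_div, ← mul_assoc]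
  congr 1
  ring

theorem leb (hM : MrkStmt) : LebStmt := by
  refine ⟨fun h C hm hb => leb1 hM h C hm hb, fun A hA => ?_⟩
  have h1 := leb1 hM (A.indicator fun _ => (1 : ℝ)) 1 (measurable_const.indicator hA) (by
    intro x
    by_cases hx : x ∈ A
    · simp [hx]
    · simp [hx])
  filter_upwards [h1] with x hx hxA
  rw [Set.indicator_of_mem hxA] at hx
  have h2 := hx.eventually (lt_mem_nhds (show (1 / 2 : ℝ) < 1 by norm_num))
  refine mem_of_superset h2 ?_
  intro y hy
  by_contra hyA
  simp only [Set.mem_ofPred_eq, Set.indicator_of_notMem hyA] at hy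
  norm_num at hy

end Pool.Agent.NL.H72
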